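import Pool.Agent.P8H18.RR.Fin4

/-! Project DS, package EX1: the graphs of a 2-transitive set of permutations of the digits. -/

set_option autoImplicit false

namespace Pool.Agent.P8H57.DS

open Finset Pool.Agent.P8H18.RR Pool.Agent.P8H18.DS

/-- the graph of a permutation -/
def gr (σ : Equiv.Perm (Fin 10)) : Finset (Fin 10 × Fin 10) :=
  Finset.univ.image (fun x : Fin 10 => (x, σ x))

theorem mem_gr (σ : Equiv.Perm (Fin 10)) (w : Fin 10 × Fin 10) : w ∈ gr σ ↔ σ w.1 = w.2 := by
  unfold gr
  rw [mem_image]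
  constructor
  · rintro ⟨x, -, rfl⟩
    rfl
  · intro h
    exact ⟨w.1, mem_univ _, Prod.ext rfl h⟩

theorem gr_inj : Function.Injective gr := by
  intro σ τ h
  apply Equiv.ext
  intro x
  have h1 : ((x, σ x) : Fin 10 × Fin 10) ∈ gr τ := by
    rw [← h, mem_gr]
  rw [mem_gr] at h1
  exact h1.symm

theorem cnt {Sg : Finset (Equiv.Perm (Fin 10))} (hT : TwoTr Sg) (x y : Fin 10) :
    10 * (Sg.filter (fun s => s x = y)).card = Sg.card := by
  obtain ⟨x', hx'⟩ : ∃ x' : Fin 10, x ≠ x' := ⟨x + 1, by revert x; decide⟩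
  have h1 : (Sg.filter (fun s => s x = y)).card =
      ∑ y' ∈ univ.erase y, ((Sg.filter (fun s => s x = y)).filter (fun s => s x' = y')).card := by
    apply Finset.card_eq_sum_card_fiberwise
    intro s hs
    have hs' : s ∈ Sg.filter (fun s => s x = y) := hs
    rw [mem_filter] at hs'
    show s x' ∈ ((univ.erase y : Finset (Fin 10)) : Set (Fin 10))
    rw [mem_coe, mem_erase]
    refine ⟨?_, mem_univ _⟩
    intro h2
    apply hx'
    apply s.injective
    rw [hs'.2, h2]
  have h2 : ∀ y' ∈ univ.erase y,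
      90 * ((Sg.filter (fun s => s x = y)).filter (fun s => s x' = y')).card = Sg.card := by
    intro y' hy'
    rw [filter_filter]
    exact hT x x' y y' hx' (ne_of_mem_erase hy').symm
  have h3 : 90 * (Sg.filter (fun s => s x = y)).card = 9 * Sg.card := by
    rw [h1, mul_sum, Finset.sum_congr rfl h2, sum_const, card_erase_of_mem (mem_univ _),
      card_univ, Fintype.card_fin, smul_eq_mul]
  omega

/-- EX1 -/
theorem ex1 : ∀ Sg : Finset (Equiv.Perm (Fin 10)), Sg.Nonempty → Pool.Agent.P8H18.RR.TwoTr Sg →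
    Pool.Agent.P8H18.DS.Con 10
      (Sg.image (fun σ => Finset.univ.image (fun x : Fin 10 => (x, σ x)))) := by
  intro Sg hne hT
  have hfun : (fun σ : Equiv.Perm (Fin 10) => Finset.univ.image (fun x : Fin 10 => (x, σ x))) =
      gr := rfl
  rw [hfun]
  have hpos : 0 < Sg.card := hne.card_pos
  refine ⟨hne.image _, ?_, ?_, ?_⟩
  · intro R hR
    obtain ⟨σ, -, rfl⟩ := mem_image.1 hR
    unfold gr
    rw [card_image_of_injective]
    · rw [card_univ, Fintype.card_fin]
    · intro x y hxy
      exact (Prod.mk.inj hxy).1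
  · have key : ∀ w : Fin 10 × Fin 10, ((Sg.image gr).filter (fun R => w ∈ R)).card =
        (Sg.filter (fun s => s w.1 = w.2)).card := by
      intro w
      rw [filter_image, card_image_of_injective _ gr_inj]
      congr 1
      ext s
      simp only [mem_filter, mem_gr]
    intro w w'
    have h1 := cnt hT w.1 w.2
    have h2 := cnt hT w'.1 w'.2
    rw [key, key]
    omega
  · intro A hA
    rcases A.eq_empty_or_nonempty with h | ⟨⟨x, y⟩, hxy⟩
    · exact Or.inl h
    · right
      have step : ∀ x y x' y' : Fin 10, (x, y) ∈ A → x ≠ x' → y ≠ y' → (x', y') ∈ A := by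
        intro x y x' y' hm hx hy
        have h1 := hT x x' y y' hx hy
        have h2 : 0 < (Sg.filter (fun s => s x = y ∧ s x' = y')).card := by omega
        obtain ⟨σ, hσ⟩ := card_pos.1 h2
        rw [mem_filter] at hσ
        rcases hA (gr σ) (mem_image_of_mem _ hσ.1) with h3 | h3
        · apply h3
          rw [mem_gr]
          exact hσ.2.2
        · exfalso
          rw [disjoint_left] at h3
          exact h3 ((mem_gr σ (x, y)).2 hσ.2.1) hm
      have hz : ∀ a b : Fin 10, ∃ c : Fin 10, a ≠ c ∧ c ≠ b := by decide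
      rw [eq_univ_iff_forall]
      rintro ⟨x', y'⟩
      obtain ⟨x'', h1, h2⟩ := hz x x'
      obtain ⟨y'', h3, h4⟩ := hz y y'
      exact step x'' y'' x' y' (step x y x'' y'' hxy h1 h3) h2 h4

end Pool.Agent.P8H57.DS
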